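import Pool.Agent.H95.DR.Targets

/-!
# Real quadratic fields: every window contains the same number of the generators of an ideal
(row AWN)
-/

set_option autoImplicit false

open MeasureTheory Set Filter NumberField
open scoped Real nonZeroDivisors Matrix MatrixGroups

open Pool.Agent.H31.CN Pool.Agent.H89.FM Pool.Agent.H61.FM Pool.Agent.H89.FC Pool.Agent.H95.FC
open Pool.Agent.H89.DF Pool.Agent.H95.DR

namespace Pool.Agent.H81.DF

theorem lv_sub' (K : Type) [Field K] [NumberField K] (α β : 𝓞 K) (v w : ℤ × ℤ) :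
    lv K α β (v - w) = lv K α β v - lv K α β w := by
  show ((v - w).1 : 𝓞 K) * α + ((v - w).2 : 𝓞 K) * β =
    ((v.1 : 𝓞 K) * α + (v.2 : 𝓞 K) * β) - ((w.1 : 𝓞 K) * α + (w.2 : 𝓞 K) * β)
  rw [Prod.fst_sub, Prod.snd_sub]
  push_cast
  ring

theorem pf_WND (hUWN : T_UWN) (hTYR : T_TYR) : T_WND := by
  intro K _ _ D f σ σ' hRQ η hη I α β Q b hOB hVB v x hv
  obtain ⟨-, -, hU⟩ := hUWN K D f σ σ' hRQ η hη
  have hlg := (hTYR K σ σ' 0 0).1
  have hv0 : lv K α β v ≠ 0 := fun h => hv (hOB.inj v h)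
  have hmem : lv K α β v ∈ (I : Ideal (𝓞 K)) := (hOB.mem _).2 ⟨v, rfl⟩
  have hex : ∀ u : (𝓞 K)ˣ, ∃ v' : ℤ × ℤ, (u : 𝓞 K) * lv K α β v = lv K α β v' :=
    fun u => (hOB.mem _).1 ((I : Ideal (𝓞 K)).mul_mem_left _ hmem)
  choose g hg using hex
  have hinj : ∀ a c : ℤ × ℤ, lv K α β a = lv K α β c → a = c := by
    intro a c h
    have h1 : a - c = 0 := hOB.inj _ (by rw [lv_sub', h, sub_self])
    exact sub_eq_zero.1 h1
  have hg0 : ∀ u, g u ≠ 0 := by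
    intro u h
    have h1 : lv K α β (g u) ≠ 0 := by
      rw [← hg u]
      exact mul_ne_zero u.ne_zero hv0
    apply h1
    rw [h]
    show (((0 : ℤ × ℤ).1 : ℤ) : 𝓞 K) * α + (((0 : ℤ × ℤ).2 : ℤ) : 𝓞 K) * β = 0
    simp
  have hbg : ∀ u, b (g u) = b v := fun u =>
    ((hVB.fib v (g u) hv (hg0 u)).2 ⟨u, (hg u).symm⟩).symm
  have hlu : ∀ u : (𝓞 K)ˣ, lg σ σ' ((u : 𝓞 K) * lv K α β v) =
      lg σ σ' (u : 𝓞 K) + lg σ σ' (lv K α β v) := fun u => (hlg _ _ u.ne_zero hv0).1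
  have hS : {v' : ℤ × ℤ | Wd σ σ' α β η x v' ∧ b v' = b v} =
      g '' {u : (𝓞 K)ˣ | x - lg σ σ' (lv K α β v) ≤ lg σ σ' (u : 𝓞 K) ∧
        lg σ σ' (u : 𝓞 K) < (x - lg σ σ' (lv K α β v)) + lg σ σ' (η : 𝓞 K)} := by
    ext v'
    constructor
    · rintro ⟨⟨h1, h2, h3⟩, h4⟩
      obtain ⟨u, hu⟩ := (hVB.fib v v' hv h1).1 h4.symm
      rw [hu, hlu u] at h2 h3
      refine ⟨u, ⟨by linarith, by linarith⟩, ?_⟩
      apply hinj
      rw [← hg u, hu]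
    · rintro ⟨u, ⟨h1, h2⟩, rfl⟩
      refine ⟨⟨hg0 u, ?_, ?_⟩, hbg u⟩
      · rw [← hg u, hlu u]
        linarith
      · rw [← hg u, hlu u]
        linarith
  have hginj : Function.Injective g := by
    intro u w h
    have h1 : (u : 𝓞 K) * lv K α β v = (w : 𝓞 K) * lv K α β v := by rw [hg u, hg w, h]
    exact Units.ext (mul_right_cancel₀ hv0 h1)
  obtain ⟨h1, h2⟩ := hU (x - lg σ σ' (lv K α β v))
  rw [hS]
  exact ⟨h1.image g, by rw [Set.ncard_image_of_injective _ hginj, h2]⟩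

end Pool.Agent.H81.DF
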